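import Mathlib
import Pool.Agent.H37.TerraciniExample

/-!
# Defective cones whose secant matroid is a Terracini union: a counterexample

Over every algebraically closed field of characteristic zero, the closure `X ⊆ K^8` of the image
of `(s,t,u,v) ↦ (s^4, s^3 t, s^2 t^2, s t^3, t^4, u^4, v^4, s t u v)` is a defective irreducible
affine cone (`dim X = 4`, `dim X^{2} = 7 < 8`) with `M(X^{2}) = M(X) ∨ M(X)` whose matroid `M(X)`
is connected, hence has neither a loop nor a coloop.
-/

namespace Pool.Agent.Results.MP_0cb83c_co.ConnectedCounterexample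

open MvPolynomial Pool.Agent.H37.AlgMatroid Pool.Agent.H37.TerraciniExample

universe u

variable {K : Type u} [Field K]

theorem exists_finset (E : Set (Fin 8)) : ∃ F : Finset (Fin 8), (F : Set (Fin 8)) = E := by
  classical
  exact ⟨Finset.univ.filter (· ∈ E), by simp⟩

theorem isCone [CharZero K] : IsIrreducibleAffineCone (X8 K) where
  closed := zariskiClosure_idem _
  prime := prime_param _
  homogeneous := fun p hp d => homogeneous_param (φ K) 4 (by norm_num) (φ_homog K) p hp d

theorem dim_X8 [CharZero K] : dim (X8 K) = (4 : ℕ) := by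
  apply dim_eq _ (prime_param _)
  · exact ⟨{0, 1, 5, 6}, indep_of_P _ (by decide), by decide⟩
  · intro E hE
    exact (P_of_indep E hE).2.1

theorem dim_secant [CharZero K] : dim (secant (X8 K)) = (7 : ℕ) := by
  apply dim_eq _ (prime_secant _)
  · exact ⟨{1, 2, 3, 4, 5, 6, 7}, secant_indep _ (by decide), by decide⟩
  · intro E hE
    have hE := (secant_indep_iff (K := K) E).mp hE
    by_contra hc
    apply hE
    have h8 : E.card ≤ 8 := by simpa using Finset.card_le_univ E
    have : E = Finset.univ := by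
      apply Finset.eq_univ_of_card
      simp
      omega
    rw [this]
    exact Finset.subset_univ _

theorem isDefective [CharZero K] : IsDefective (X8 K) := by
  rw [IsDefective, dim_X8, dim_secant]
  have : ((4 : ℕ) : WithBot ℕ∞) + ((4 : ℕ) : WithBot ℕ∞) = ((8 : ℕ) : WithBot ℕ∞) := by
    rfl
  rw [this, min_self]
  exact_mod_cast (by norm_num : (7 : ℕ) < 8)

/-- Two independent sets covering the complement of `j`. -/
def B1 : Fin 5 → Finset (Fin 8) :=
  ![{1, 2, 5, 7}, {0, 2, 5, 7}, {0, 1, 5, 7}, {0, 1, 5, 7}, {0, 1, 5, 7}]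

/-- Two independent sets covering the complement of `j`. -/
def B2 : Fin 5 → Finset (Fin 8) :=
  ![{3, 4, 6, 7}, {3, 4, 6, 7}, {3, 4, 6, 7}, {2, 4, 6, 7}, {2, 3, 6, 7}]

theorem cover_ok : ∀ j : Fin 5, P (B1 j) ∧ P (B2 j) ∧ ∀ i, rows j i ∈ B1 j ∪ B2 j := by
  decide +kernel

theorem isTerracini [CharZero K] : IsTerraciniUnion (X8 K) := by
  intro E
  constructor
  · intro hE
    obtain ⟨F, rfl⟩ := exists_finset E
    rw [secant_indep_iff] at hE
    obtain ⟨j, hj⟩ := A5_elem F hE
    obtain ⟨h1, h2, h3⟩ := cover_ok j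
    refine ⟨((F ∩ B1 j : Finset (Fin 8)) : Set (Fin 8)), ((F ∩ B2 j : Finset (Fin 8)) : Set (Fin 8)),
      (indep_of_P _ h1).mono (by simp), (indep_of_P _ h2).mono (by simp), ?_⟩
    rw [← Finset.coe_union, ← Finset.inter_union_distrib_left]
    congr 1
    ext e
    rw [Finset.mem_inter]
    refine ⟨fun he => ⟨he, ?_⟩, fun h => h.1⟩
    obtain ⟨i, rfl⟩ := hj e he
    exact h3 i
  · rintro ⟨A, B, hA, hB, rfl⟩
    obtain ⟨FA, rfl⟩ := exists_finset A
    obtain ⟨FB, rfl⟩ := exists_finset B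
    rw [← Finset.coe_union, secant_indep_iff]
    intro hsub
    have hA' := (P_of_indep FA hA).1
    have hB' := (P_of_indep FB hB).1
    have h5 : A5.card = 5 := by decide
    have : A5 = (FA ∩ A5) ∪ (FB ∩ A5) := by
      rw [← Finset.union_inter_distrib_right]
      exact (Finset.inter_eq_right.mpr hsub).symm
    have h6 := Finset.card_union_le (FA ∩ A5) (FB ∩ A5)
    rw [← this] at h6
    omega

theorem noLoop [CharZero K] : ¬ HasLoop (X8 K) := by
  rintro ⟨e, he⟩
  have : P {e} := by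
    revert e
    have h : ∀ e : Fin 8, P {e} := by decide
    intro e _
    exact h e
  exact he _ (indep_of_P _ this) (by simp)

theorem maximal_of_card [CharZero K] (F : Finset (Fin 8)) (hF : P F) (hc : F.card = 4) :
    Maximal (Indep (X8 K)) (F : Set (Fin 8)) := by
  refine ⟨indep_of_P F hF, ?_⟩
  intro G hG hFG
  obtain ⟨G, rfl⟩ := exists_finset G
  have h1 := (P_of_indep G hG).2.1
  have h2 : F ⊆ G := by exact_mod_cast hFG
  have h3 := Finset.eq_of_subset_of_card_le h2 (by omega)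
  rw [h3]

theorem noColoop [CharZero K] : ¬ HasColoop (X8 K) := by
  rintro ⟨e, he⟩
  have h : ∀ e : Fin 8, ∃ F : Finset (Fin 8), P F ∧ F.card = 4 ∧ e ∉ F := by
    decide +kernel
  obtain ⟨F, hF, hc, heF⟩ := h e
  exact heF (by exact_mod_cast he _ (maximal_of_card F hF hc))

theorem circuit_of [CharZero K] (F : Finset (Fin 8)) (h1 : ¬ P F) (h2 : ∀ x ∈ F, P (F.erase x)) :
    IsCircuit (X8 K) (F : Set (Fin 8)) := by
  refine ⟨fun h => h1 (P_of_indep F h), ?_⟩
  intro G hG hGF
  obtain ⟨G, rfl⟩ := exists_finset G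
  have hGF' : G ⊆ F := by exact_mod_cast hGF
  by_contra hne
  have hne' : ¬ F ⊆ G := fun h => hne (by exact_mod_cast h)
  obtain ⟨x, hxF, hxG⟩ := Finset.not_subset.mp hne'
  apply hG
  apply (indep_of_P _ (h2 x hxF)).mono
  have : G ⊆ F.erase x := fun y hy => Finset.mem_erase.mpr ⟨fun h => hxG (h ▸ hy), hGF' hy⟩
  exact_mod_cast this

theorem connected [CharZero K] : IsConnectedMatroid (X8 K) := by
  have hc : ∀ x : Fin 8, ∃ F : Finset (Fin 8), IsCircuit (X8 K) (F : Set (Fin 8)) ∧
      (2 : Fin 8) ∈ F ∧ x ∈ F := by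
    have h : ∀ x : Fin 8, ∃ F : Finset (Fin 8), (¬ P F ∧ ∀ y ∈ F, P (F.erase y)) ∧
      (2 : Fin 8) ∈ F ∧ x ∈ F := by
      decide +kernel
    intro x
    obtain ⟨F, ⟨h1, h2⟩, h3, h4⟩ := h x
    exact ⟨F, circuit_of F h1 h2, h3, h4⟩
  rintro A ⟨a, ha⟩ ⟨b, hb⟩
  by_cases h2 : (2 : Fin 8) ∈ A
  · obtain ⟨F, hF, hF2, hFb⟩ := hc b
    exact ⟨F, hF, ⟨2, hF2, h2⟩, ⟨b, hFb, hb⟩⟩
  · obtain ⟨F, hF, hF2, hFa⟩ := hc a
    exact ⟨F, hF, ⟨a, hFa, ha⟩, ⟨2, hF2, h2⟩⟩

/-- **Counterexample.** Over every algebraically closed field of characteristic zero there is a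
defective irreducible affine cone `X ⊆ K^8` such that `M(X^{2})` is a Terracini union, while the
matroid `M(X)` has no loop, no coloop, and is even connected. -/
theorem result (K : Type u) [Field K] [IsAlgClosed K] [CharZero K] :
    ∃ X : Set (Fin 8 → K), IsIrreducibleAffineCone X ∧ IsDefective X ∧ IsTerraciniUnion X ∧
      ¬ HasLoop X ∧ ¬ HasColoop X ∧ IsConnectedMatroid X :=
  ⟨X8 K, isCone, isDefective, isTerracini, noLoop, noColoop, connected⟩

end Pool.Agent.Results.MP_0cb83c_co.ConnectedCounterexample
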